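import Pool.Agent.TH970.SE.Lem
import Pool.Agent.Results.MP_c2475b_nt.ExactDegree

/-! For every `n ≥ 1` the spectrum of the exact degree exponent `w_{=n}` is `[n, ∞]`. -/

set_option autoImplicit false

open Polynomial

namespace Pool.Agent.Results.MP_5a602a_nt.MahlerSpectrum

/-- The naive height of an integer polynomial: the maximum of the absolute values of its
coefficients. -/
def naiveHeight (P : ℤ[X]) : ℕ := P.support.sup fun i => (P.coeff i).natAbs

/-- For arbitrarily large real `X ≥ 1` there is an irreducible integer polynomial `P` of degree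
exactly `n` with `H(P) ≤ X` and `0 < |P(ζ)| ≤ X^(-w)`. -/
def SolvableArbitrarilyLarge (n : ℕ) (ζ w : ℝ) : Prop :=
  ∀ X₀ : ℝ, ∃ X : ℝ, X₀ ≤ X ∧ 1 ≤ X ∧ ∃ P : ℤ[X], P.natDegree = n ∧ Irreducible P ∧
    (naiveHeight P : ℝ) ≤ X ∧ 0 < |aeval ζ P| ∧ |aeval ζ P| ≤ X ^ (-w)

/-- The exponent `w_{=n}(ζ)`, as an extended real number. -/
noncomputable def wExact (n : ℕ) (ζ : ℝ) : EReal :=
  sSup {w : EReal | ∃ r : ℝ, w = (r : EReal) ∧ SolvableArbitrarilyLarge n ζ r}

/-- The spectrum of `w_{=n}`: the set of its values at the transcendental real numbers. -/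
def spectrum (n : ℕ) : Set EReal := {x | ∃ ζ : ℝ, Transcendental ℚ ζ ∧ wExact n ζ = x}

open Pool.Agent.W71 Pool.Agent.TH970.SE

theorem aeval_ne {ζ : ℝ} (hζ : Transcendental ℤ ζ) (P : ℤ[X]) (hP : P ≠ 0) : aeval ζ P ≠ 0 :=
  fun h => hζ ⟨P, hP, h⟩

theorem trans_Z {ζ : ℝ} (hζ : Transcendental ℚ ζ) : Transcendental ℤ ζ := fun h =>
  hζ (h.extendScalars (RingHom.injective_int (algebraMap ℤ ℚ)))

theorem trans_Q {ζ : ℝ} (hζ : Transcendental ℤ ζ) : Transcendental ℚ ζ := fun h =>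
  hζ ((IsFractionRing.isAlgebraic_iff ℤ ℚ ℝ).2 h)

theorem le_wExact {n : ℕ} (ξ w : ℝ) (hw : 0 ≤ w) (hξ : Transcendental ℤ ξ)
    (hinf : {α : ℝ | ∃ P : ℤ[X], MinPolyZ P α ∧ P.natDegree = n ∧
      |ξ - α| < (hgt P : ℝ) ^ (-(1 + w))}.Infinite) : (w : EReal) ≤ wExact n ξ := by
  apply le_of_forall_lt
  intro c hc
  obtain ⟨r, hr1, hr2⟩ := EReal.lt_iff_exists_real_btwn.1 hc
  have hr2' : r < w := by exact_mod_cast hr2
  refine lt_of_lt_of_le hr1 (le_sSup ⟨r, rfl, ?_⟩)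
  intro X₀
  obtain ⟨X, h1, h2, P, h3, h4, h5, h6⟩ := lower (n := n) ξ w r hw hr2' hinf X₀
  exact ⟨X, h1, h2, P, h3, h4, h5, abs_pos.2 (aeval_ne hξ P h4.ne_zero), h6⟩

theorem wExact_le {n : ℕ} (ξ w : ℝ) (hw : 0 ≤ w) (hξ : Transcendental ℤ ξ)
    (h : ∀ v : ℝ, w < v → {P : ℤ[X] | P ≠ 0 ∧ P.natDegree ≤ n ∧
      |aeval ξ P| ≤ ((Ht n P : ℕ) : ℝ) ^ (-v)}.Finite) : wExact n ξ ≤ (w : EReal) := by
  apply sSup_le
  rintro W ⟨r, rfl, hr⟩
  rw [EReal.coe_le_coe_iff]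
  by_contra hcon
  push Not at hcon
  obtain ⟨X₀, hX₀⟩ := upper (n := n) ξ r (by linarith) (aeval_ne hξ) (h r hcon)
  obtain ⟨X, h1, h2, P, h3, h4, h5, h6, h7⟩ := hr X₀
  have := hX₀ X h1 h2 P h4.ne_zero h3.le h5
  linarith

/-- For every `n ≥ 1` the spectrum of `w_{=n}` is the interval `[n, ∞]`. -/
theorem result : ∀ n : ℕ, 1 ≤ n → spectrum n = Set.Icc (n : EReal) ⊤ := by
  intro n hn
  apply Set.Subset.antisymm
  · rintro x ⟨ζ, hζ, rfl⟩
    exact ⟨Pool.Agent.Results.MP_c2475b_nt.ExactDegree.result n hn ζ hζ, le_top⟩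
  · rintro x ⟨hx, -⟩
    have hn0 : (0 : ℝ) ≤ n := Nat.cast_nonneg n
    induction x with
    | bot => exact absurd (le_bot_iff.1 hx) (EReal.natCast_ne_bot n)
    | top =>
      obtain ⟨ξ, hξ, hinf⟩ := top hn
      refine ⟨ξ, trans_Q hξ, ?_⟩
      rw [EReal.eq_top_iff_forall_lt]
      intro y
      refine lt_of_lt_of_le ?_ (le_wExact ξ (max y 0 + 1) (by positivity) hξ
        (hinf (max y 0 + 1) (by positivity)))
      have : y < max y 0 + 1 := by linarith [le_max_left y 0]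
      exact_mod_cast this
    | coe w =>
      have hw : (n : ℝ) ≤ w := by exact_mod_cast hx
      have hcount : {x : ℝ | IsAlgebraic ℚ x}.Countable := Algebraic.countable ℚ ℝ
      obtain ⟨av, hav⟩ := hcount.exists_eq_range ⟨0, isAlgebraic_zero⟩
      have htr : ∀ ξ : ℝ, (∀ k, ξ ≠ av k) → Transcendental ℚ ξ := by
        intro ξ h hξ
        have : ξ ∈ {x : ℝ | IsAlgebraic ℚ x} := hξ
        rw [hav] at this
        obtain ⟨k, hk⟩ := this
        exact h k hk.symm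
      rcases hn.eq_or_lt with rfl | hn2
      · obtain ⟨ξ, h0, h1, -, h3, -⟩ := two_deg_exact 1 2 le_rfl (by norm_num) w (max w 2)
          hw (by push_cast; exact le_max_right _ _) (le_max_left _ _) av
        exact ⟨ξ, htr ξ h0, le_antisymm
          (wExact_le ξ w (by linarith) (trans_Z (htr ξ h0)) h1)
          (le_wExact ξ w (by linarith) (trans_Z (htr ξ h0)) h3)⟩
      · obtain ⟨m, rfl⟩ : ∃ m, n = m + 1 := ⟨n - 1, by omega⟩
        have hw' : (m : ℝ) + 1 ≤ w := by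
          have := hw
          push_cast at this
          exact this
        obtain ⟨ξ, h0, -, h2, -, h4⟩ := two_deg_exact m (m + 1) (by omega) (by omega) m w
          le_rfl hw (by linarith) av
        exact ⟨ξ, htr ξ h0, le_antisymm
          (wExact_le ξ w (by linarith) (trans_Z (htr ξ h0)) h2)
          (le_wExact ξ w (by linarith) (trans_Z (htr ξ h0)) h4)⟩

end Pool.Agent.Results.MP_5a602a_nt.MahlerSpectrum
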